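import Pool.Agent.H71.ASF.Stmts

/-!
# Project ASF (MP_8ae111_al): module WO1
-/

namespace ASF

universe u

namespace WO1

variable {A : Type u} [NonUnitalNonAssocRing A]

theorem core (B : AddSubgroup A)
    (hP : ∀ b1 ∈ B, ∀ b2 ∈ B, ∀ b3 ∈ B, ∀ b4 ∈ B, FProp b1 b2 b3 b4)
    (hV : ∀ b1 ∈ B, ∀ b2 ∈ B, ∀ b3 ∈ B, ∀ b4 ∈ B, ∀ x y : A, dl b1 b2 x * dl b3 b4 y = 0)
    (x' : A)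
    (hz : ∀ b1 ∈ B, ∀ b2 ∈ B, ∀ b3 ∈ B, ∀ b4 ∈ B, ∀ y z : A,
      asc (dl b1 b2 x') (dl b3 b4 y) z = 0)
    (b1 : A) (h1 : b1 ∈ B) (b2 : A) (h2 : b2 ∈ B) (b3 : A) (h3 : b3 ∈ B) (b4 : A) (h4 : b4 ∈ B)
    (y : A) : O1 (dl b1 b2 y) (dl b3 b4 x') := by
  have s1 : ∀ b1 ∈ B, ∀ b2 ∈ B, ∀ b3 ∈ B, ∀ b4 ∈ B, ∀ y a : A, FF b1 b2 b3 b4 x' y a = 0 :=
    fun b1 h1 b2 h2 b3 h3 b4 h4 y a => hz b1 h1 b2 h2 b3 h3 b4 h4 y a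
  have s2 : ∀ b1 ∈ B, ∀ b2 ∈ B, ∀ b3 ∈ B, ∀ b4 ∈ B, ∀ y a : A, FF b1 b2 b3 b4 y x' a = 0 := by
    intro b1 h1 b2 h2 b3 h3 b4 h4 y a
    rw [(hP b1 h1 b2 h2 b3 h3 b4 h4).skew, s1 b1 h1 b2 h2 b3 h3 b4 h4, neg_zero]
  have s3 : ∀ b1 ∈ B, ∀ b2 ∈ B, ∀ b3 ∈ B, ∀ b4 ∈ B, ∀ y a : A, FF b1 b2 b3 b4 y a x' = 0 := by
    intro b1 h1 b2 h2 b3 h3 b4 h4 y a
    have h := (hP b1 h1 b2 h2 b3 h3 b4 h4).cyc x' y a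
    rw [s1 b1 h1 b2 h2 b3 h3 b4 h4, s2 b1 h1 b2 h2 b3 h3 b4 h4, zero_add, add_zero] at h
    exact h
  have P := hP b1 h1 b2 h2 b3 h3 b4 h4
  have Q := hP b3 h3 b4 h4 b1 h1 b2 h2
  refine ⟨hV b1 h1 b2 h2 b3 h3 b4 h4 _ _, hV b3 h3 b4 h4 b1 h1 b2 h2 _ _, fun a => ?_,
    fun a => ?_, fun a => ?_, fun a => ?_, fun a => ?_, fun a => ?_, fun a => ?_, fun a => ?_⟩
  · rw [P.pa_q, s2 b1 h1 b2 h2 b3 h3 b4 h4, neg_zero]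
  · rw [P.ap_q, s2 b1 h1 b2 h2 b3 h3 b4 h4]
  · rw [Q.p_qa, s1 b3 h3 b4 h4 b1 h1 b2 h2, neg_zero]
  · rw [Q.p_aq, s1 b3 h3 b4 h4 b1 h1 b2 h2]
  · rw [P.p_qa, s2 b1 h1 b2 h2 b3 h3 b4 h4, neg_zero]
  · rw [P.p_aq, s3 b1 h1 b2 h2 b3 h3 b4 h4]
  · rw [Q.pa_q, s3 b3 h3 b4 h4 b1 h1 b2 h2, neg_zero]
  · rw [Q.ap_q, s1 b3 h3 b4 h4 b1 h1 b2 h2]

end WO1

theorem wo1 (h1 : WVVStmt.{u}) (h2 : WFSStmt.{u}) (h3 : WE0Stmt.{u}) : WO1Stmt.{u} := by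
  intro A _ _ _ B hB b1 m1 b2 m2 b3 m3 b4 m4 b5 m5 x y
  have hV := h1 A B hB
  have hP := h2 A B hB.n hV
  have hE := h3 A B hB
  have nl : ∀ b ∈ B, ∀ c ∈ B, b * c = 0 := hB.n
  have er : ∀ e1 ∈ B, ∀ e2 ∈ B, dl e1 e2 (x * b5) = dl e1 e2 x * b5 := fun e1 n1 e2 n2 =>
    dl_mulr (nl _ n1 _ n2) (nl _ n2 _ n1) (nl _ m5 _ n1) x
  have el : ∀ e1 ∈ B, ∀ e2 ∈ B, dl e1 e2 (b5 * x) = b5 * dl e1 e2 x := fun e1 n1 e2 n2 =>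
    dl_mull (nl _ n1 _ n2) (nl _ n2 _ n1) (nl _ m5 _ n1) x
  constructor
  · rw [← er b3 m3 b4 m4]
    refine WO1.core B hP hV _ (fun e1 n1 e2 n2 e3 n3 e4 n4 y z => ?_) b1 m1 b2 m2 b3 m3 b4 m4 y
    rw [er e1 n1 e2 n2]
    exact (hE e1 n1 e2 n2 b5 m5 e3 n3 e4 n4 x y z).1
  · rw [← el b3 m3 b4 m4]
    refine WO1.core B hP hV _ (fun e1 n1 e2 n2 e3 n3 e4 n4 y z => ?_) b1 m1 b2 m2 b3 m3 b4 m4 y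
    rw [el e1 n1 e2 n2]
    exact (hE e1 n1 e2 n2 b5 m5 e3 n3 e4 n4 x y z).2

end ASF
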